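import Mathlib
import Pool.Agent.N178.HX.StmG

/-!
# Project GHC3, part POW: the CM types of an abelian variety of dimension at most three (helper87)

The decomposition into simple factors is the one of `Pool.Agent.N995.exists_factors`.
-/

set_option linter.unusedSectionVars false

namespace Pool.Agent.N87.HX

open Matrix Module NumberField Pool.Agent.W437.HC Pool.Agent.W437.HD Pool.Agent.TH504.CB
open Pool.Agent.Y90 Pool.Agent.R915
open Pool.Agent.W548.Odd hiding cv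
open Pool.Agent.W437.HP (cK cK_mul cK_one cK_sum)
open Pool.Agent.H204R3.CM (IsHodge IsCMType)
open Pool.Agent.W547.KB (CMPair CMAV single)
open Pool.Agent.N830.HC (exists_type av inj_of_simple)

noncomputable section

/-- **The simple factors of an abelian variety.** -/
theorem exists_factors (A : AV) : ∃ (ι : Type) (_ : Fintype ι) (_ : DecidableEq ι) (a : ι → ℕ)
    (Z' : ∀ i, Matrix (Fin (a i)) (Fin (a i)) ℂ) (h' : ∀ i, PM (Z' i)),
    (∀ i, 0 < a i) ∧ (∀ i, IsSimple (AVZ (h' i))) ∧ finrank ℚ A.H = 2 * ∑ i, a i ∧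
      ∀ Y, IsFactor Y A → ∃ i, ∃ e : Y.H ≃ₗ[ℚ] (AVZ (h' i)).H,
        IsHom Y (AVZ (h' i)) e.toLinearMap ∧ IsHom (AVZ (h' i)) Y e.symm.toLinearMap := by
  obtain ⟨G, Z, h, A', hC'⟩ := exists_ppav (AV.isAV A)
  obtain ⟨ι, _, _, g, Z', E, F, h1, h2, h3, h4, h5, h6, h7, h8⟩ :=
    decomposes G G Z le_rfl h.symm h.pos
  have hfac : ∀ i, Fac Z (Z' i) (E i) (F i) := by
    intro i
    refine ⟨h4 i, de_of_JR (h7 i), fd_of_JR ?_⟩
    have h12 : JR Z = ∑ j, JR Z * cK ℝ (E j) * cK ℝ (F j) := by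
      have h13 : JR Z = JR Z * cK ℝ (∑ i, E i * F i) := by rw [h6, cK_one, Matrix.mul_one]
      conv_lhs => rw [h13, cK_sum, Matrix.mul_sum]
      refine Finset.sum_congr rfl fun j _ => ?_
      rw [cK_mul, Matrix.mul_assoc]
    rw [h12, Matrix.mul_sum, Finset.sum_eq_single i]
    · rw [h7 i, ← Matrix.mul_assoc, ← Matrix.mul_assoc, ← cK_mul, h4 i, cK_one, Matrix.one_mul]
    · intro j _ hj
      rw [h7 j, ← Matrix.mul_assoc, ← Matrix.mul_assoc, ← cK_mul, h5 i j hj.symm,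
        Pool.Agent.W437.HP.cK_zero, Matrix.zero_mul, Matrix.zero_mul]
    · intro hi'
      exact absurd (Finset.mem_univ i) hi'
  have hPM : ∀ i, PM (Z' i) := fun i => ⟨h1 i, h2 i⟩
  have hsim : ∀ i, IsSimple (AVZ (hPM i)) := fun i => simple_of (g i) (hPM i) (h3 i) (h8 i)
  have hrk : finrank ℚ A.H = 2 * ∑ i, g i := by
    have e1 : (∑ i, E i * F i).trace = ((2 * ∑ i, g i : ℕ) : ℚ) := by
      rw [trace_sum]
      push_cast
      rw [Finset.mul_sum]
      refine Finset.sum_congr rfl fun i _ => ?_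
      rw [Matrix.trace_mul_comm, h4 i, trace_one, Fintype.card_sum, Fintype.card_fin]
      push_cast
      ring
    rw [h6, trace_one, Fintype.card_sum, Fintype.card_fin] at e1
    have e2 : G + G = 2 * ∑ i, g i := by exact_mod_cast e1
    rw [A'.finrank_eq, finrank_fintype_fun_eq_card, Fintype.card_sum, Fintype.card_fin, e2]
  refine ⟨ι, inferInstance, inferInstance, g, Z', hPM, h8, hsim, hrk, fun Y hY => ?_⟩
  obtain ⟨hYs, j, hj, hinj⟩ := hY
  obtain ⟨Ψ₂, h₂⟩ := hC'.hom h.cht (R := 1) (by rw [cK_one, Matrix.one_mul, Matrix.mul_one])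
  have e₂ : ∀ v, Ψ₂ (A.per v) = perOne Z (A' v) := fun v => by
    have h3 := h₂ (A' v)
    have h4 : (A.per.comp A'.symm.toLinearMap.toAddMonoidHom) (A' v) = A.per v := by
      change A.per (A'.symm (A' v)) = A.per v
      rw [LinearEquiv.symm_apply_apply]
    rwa [h4, one_mulVec] at h3
  have hA' : IsHom A (AVZ h) A'.toLinearMap := ⟨Ψ₂, e₂⟩
  have hF : ∀ i, IsHom (AVZ h) (AVZ (hPM i)) (Matrix.mulVecLin (F i)) := by
    intro i
    obtain ⟨Ψ₁, h₁⟩ := h.cht.hom (hPM i).cht (R := F i)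
      (by rw [DJ_JR, DJ_JR]; exact (hfac i).fd)
    exact ⟨Ψ₁, fun v => h₁ v⟩
  obtain ⟨i, hi⟩ : ∃ i, (Matrix.mulVecLin (F i)).comp (A'.toLinearMap.comp j) ≠ 0 := by
    by_contra hcon
    push Not at hcon
    obtain ⟨y, hy⟩ := hYs.1
    refine hy (hinj ?_)
    rw [map_zero]
    apply A'.injective
    rw [map_zero]
    have e1 : (∑ i, E i * F i) *ᵥ (A' (j y)) = 0 := by
      rw [sum_mulVec]
      refine Finset.sum_eq_zero fun i _ => ?_
      rw [← mulVec_mulVec]
      have e2 : F i *ᵥ (A' (j y)) = 0 := congrArg (fun φ => φ y) (hcon i)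
      rw [e2, mulVec_zero]
    rwa [h6, one_mulVec] at e1
  obtain ⟨e, he⟩ := iso_of_simple hYs (hsim i) (IsHom.comp' (hF i) (IsHom.comp' hA' hj)) hi
  exact ⟨i, e, he⟩

/-- Abelian varieties of CM type `P`. -/
theorem hom_of_type {Y : AV} {P : CMPair} (h : IsOfType Y P) :
    ∃ f : Y.H →ₗ[ℚ] (av (single P)).H, IsHom Y (av (single P)) f ∧ Function.Injective f := by
  obtain ⟨e, Ψ, hΨ⟩ := h
  let e' : (av (single P)).H ≃ₗ[ℚ] P.E := LinearEquiv.funUnique Unit ℚ P.E
  refine ⟨e'.symm.toLinearMap.comp e.toLinearMap,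
    ⟨{ toFun := fun t => ((fun _ φ => Ψ t φ) : (single P).Tan)
       map_add' := fun u v => ?_
       map_smul' := fun c u => ?_ }, fun v => ?_⟩, ?_⟩
  · funext _ φ
    exact congrFun (map_add Ψ u v) φ
  · funext _ φ
    exact congrFun (map_smul Ψ c u) φ
  · funext _ φ
    exact hΨ v φ
  · exact e'.symm.injective.comp e.injective

theorem factor_of_type {Y Y' : AV} {P : CMPair} (h : IsOfType Y P) (hs : IsSimple Y')
    {e : Y'.H →ₗ[ℚ] Y.H} (he : IsHom Y' Y e) (hi : Function.Injective e) :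
    IsFactor Y' (av (single P)) := by
  obtain ⟨f, hf, hfi⟩ := hom_of_type h
  exact ⟨hs, f.comp e, IsHom.comp' hf he, hfi.comp hi⟩

theorem finrank_of_type {Y : AV} {P : CMPair} (h : IsOfType Y P) :
    finrank ℚ P.E = finrank ℚ Y.H := by
  obtain ⟨e, -, -⟩ := h
  exact e.finrank_eq.symm

/-- Multiplication of `√-d` by a rational number. -/
theorem unb_mul {Y : AV} {d d' r : ℚ} (h : Unbalanced Y d) (hd' : 0 < d') (hr : d' = d * r ^ 2) :
    Unbalanced Y d' := by
  obtain ⟨hd, f, Ψ, s, h1, h2, h3, h4⟩ := h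
  have hr0 : r ≠ 0 := by
    rintro rfl
    rw [hr] at hd'
    simp at hd'
  have hrc : (r : ℂ) ≠ 0 := by exact_mod_cast hr0
  refine ⟨hd', r • f, (r : ℂ) • Ψ, (r : ℂ) * s, fun v => ?_, fun w => ?_, ?_, ?_⟩
  · have e1 : Y.per (r • f v) = (r : ℂ) • Y.per (f v) := by
      have e2 := map_ratCast_smul Y.per ℚ ℂ r (f v)
      rwa [Rat.cast_id] at e2
    rw [LinearMap.smul_apply, LinearMap.smul_apply, h1, e1]
  · rw [LinearMap.smul_apply, LinearMap.smul_apply, map_smul, h2, hr, smul_neg, smul_neg,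
      smul_smul, smul_smul]
    congr 2
    ring
  · rw [hr]
    push_cast
    linear_combination (r : ℂ) ^ 2 * h3
  · have e1 : (r : ℂ) • Ψ - ((r : ℂ) * s) • LinearMap.id = (r : ℂ) • (Ψ - s • LinearMap.id) := by
      rw [smul_sub, smul_smul]
    have e2 : (r : ℂ) • Ψ + ((r : ℂ) * s) • LinearMap.id = (r : ℂ) • (Ψ + s • LinearMap.id) := by
      rw [smul_add, smul_smul]
    rw [e1, e2, LinearMap.ker_smul _ _ hrc, LinearMap.ker_smul _ _ hrc]
    exact h4

/-- The elliptic curve with complex multiplication by `ℚ(√-d)`. -/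
theorem exists_ell {d : ℚ} (hd : 0 < d) : ∃ (P : CMPair) (E : AV), finrank ℚ P.E = 2 ∧
    IsFactor E (av (single P)) ∧ finrank ℚ E.H = 2 ∧ Unbalanced E d := by
  have hs := simple_of 1 (pmE (M := 1) (fun _ => hd) (l := fun _ => 1) (fun _ => one_pos))
    (simpleE hd) one_pos
  have hE : finrank ℚ (AVZ (pmE (M := 1) (fun _ => hd) (l := fun _ => 1) (fun _ => one_pos))).H =
      2 := by
    change finrank ℚ (Fin 1 ⊕ Fin 1 → ℚ) = 2
    rw [finrank_fintype_fun_eq_card, Fintype.card_sum, Fintype.card_fin]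
  obtain ⟨P, hP⟩ := exists_type _ hs (cmE hd)
  refine ⟨P, _, ?_, factor_of_type hP hs (e := LinearMap.id) ⟨LinearMap.id, fun _ => rfl⟩
    (fun _ _ h => h), hE, unbE hd⟩
  rw [finrank_of_type hP, hE]

/-- **Project GHC3, POW.** -/
theorem t_POW : Pool.Agent.N178.HX.S_UNB → Pool.Agent.N178.HX.S_POW := by
  classical
  intro hU A hA
  obtain ⟨ι, _, _, a, Z', h', ha, hsim, hrk, hfac⟩ := exists_factors A
  have hY : ∀ i, finrank ℚ (AVZ (h' i)).H = 2 * a i := by
    intro i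
    change finrank ℚ (Fin (a i) ⊕ Fin (a i) → ℚ) = _
    rw [finrank_fintype_fun_eq_card, Fintype.card_sum, Fintype.card_fin]
    ring
  have hsum : ∑ i, 2 * a i ≤ 6 := by
    rw [← Finset.mul_sum, ← hrk]
    exact hA
  have hY6 : ∀ i, finrank ℚ (AVZ (h' i)).H ≤ 6 := by
    intro i
    rw [hY]
    exact (Finset.single_le_sum (f := fun i => 2 * a i) (fun _ _ => Nat.zero_le _)
      (Finset.mem_univ i)).trans hsum
  let Q : ι → Prop := fun i => HasCMult (AVZ (h' i)) ∨ ∃ d, Unbalanced (AVZ (h' i)) d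
  have key : ∀ i : {i // Q i}, ∃ P : CMPair, finrank ℚ P.E ≤ 2 * a i.1 ∧
      (HasCMult (AVZ (h' i.1)) → IsOfType (AVZ (h' i.1)) P) ∧
      (¬ HasCMult (AVZ (h' i.1)) → ∀ d, Unbalanced (AVZ (h' i.1)) d →
        ∃ E, IsFactor E (av (single P)) ∧ finrank ℚ E.H = 2 ∧ Unbalanced E d) := by
    rintro ⟨i, hi⟩
    by_cases hcm : HasCMult (AVZ (h' i))
    · obtain ⟨P, hP⟩ := exists_type _ (hsim i) hcm
      exact ⟨P, by rw [finrank_of_type hP, hY], fun _ => hP, fun h => absurd hcm h⟩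
    · obtain ⟨d₀, hd₀⟩ : ∃ d, Unbalanced (AVZ (h' i)) d := by
        rcases hi with h | h
        · exact absurd h hcm
        · exact h
      obtain ⟨P, E, h1, h2, h3, h4⟩ := exists_ell hd₀.1
      refine ⟨P, ?_, fun h => absurd h hcm, fun _ d hd => ⟨E, h2, h3, ?_⟩⟩
      · have := ha i
        rw [h1]
        change 2 ≤ 2 * a i
        omega
      · obtain ⟨r, hr⟩ := hU (AVZ (h' i)) (hsim i) hcm (Or.inl (hY6 i)) d₀ d hd₀ hd
        exact unb_mul h4 hd.1 hr
  choose T hT1 hT2 hT3 using key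
  refine ⟨{i // Q i}, inferInstance, T, ?_, ?_⟩
  · refine (Finset.sum_le_sum fun k _ => hT1 k).trans ?_
    refine le_trans ?_ hsum
    rw [← Finset.sum_subtype (Finset.univ.filter Q) (fun i => by simp) (fun i => 2 * a i)]
    exact Finset.sum_le_sum_of_subset (Finset.filter_subset _ _)
  · intro X hX Y hYX
    have hYA := hX Y hYX
    obtain ⟨i, e, he, hes⟩ := hfac Y hYA
    by_cases hcm : HasCMult (AVZ (h' i))
    · exact Or.inl ⟨⟨i, Or.inl hcm⟩, factor_of_type (hT2 ⟨i, Or.inl hcm⟩ hcm) hYX.1 he e.injective⟩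
    · refine Or.inr ⟨fun h => hcm (HasCMult.iso e.symm hes (by
        rw [LinearEquiv.symm_symm]; exact he) h), Or.inl ?_, fun d hd => ⟨?_, ?_⟩⟩
      · rw [e.finrank_eq]
        exact hY6 i
      · rw [e.finrank_eq]
        have := hY6 i
        omega
      · have hd' : Unbalanced (AVZ (h' i)) d := hd.iso e.symm hes
        obtain ⟨E, hE⟩ := hT3 ⟨i, Or.inr ⟨d, hd'⟩⟩ hcm d hd'
        exact ⟨⟨i, Or.inr ⟨d, hd'⟩⟩, E, hE⟩

end

end Pool.Agent.N87.HX
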